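import Pool.Agent.HEC.Stmts

/-!
# Squad HEC, row TW2 (helper94)

Both sides: apply TWO to `t` and to `fun v => !(t v)` and add.
-/

set_option autoImplicit false

open Finset Matrix

namespace Pool.Agent.HEC.H94

open Pool.Agent.HEC

theorem tw2 (h1 : TwoStmt) : Tw2Stmt := by
  intro V _ H t L eta M r hb hL hc he hM hd1 hd2
  have hb' : ∀ u v, H.Adj u v → (fun v => !(t v)) u ≠ (fun v => !(t v)) v := by
    intro u v huv h
    apply hb u v huv
    simpa using h
  have hd2' : (M : ℤ) ∣ ∑ v, (if (fun v => !(t v)) v = true then r v else 0) := by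
    have e : ∑ v, (if (fun v => !(t v)) v = true then r v else 0)
        = ∑ v, (if t v = true then 0 else r v) := by
      apply Finset.sum_congr rfl
      intro v _
      cases h : t v <;> simp [h]
    rw [e]
    exact hd2
  obtain ⟨b1, x1, a1, d1, s1, R1, B1⟩ := h1 V H t L eta M r hb hL hc he hM hd1
  obtain ⟨b2, x2, a2, d2, s2, R2, B2⟩ :=
    h1 V H (fun v => !(t v)) L eta M r hb' hL hc he hM hd2'
  refine ⟨fun v => b1 v + b2 v, fun u v => x1 u v + x2 u v, ?_, ?_, ⟨?_, ?_, ?_⟩, ?_⟩
  · intro v
    cases h : t v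
    · have e1 := a1 v h
      have e2 := d2 v (by simp [h])
      simpa [e1] using e2
    · have e1 := d1 v h
      have e2 := a2 v (by simp [h])
      simpa [e2] using e1
  · rw [Finset.sum_add_distrib, s1, s2, add_zero]
  · intro u v
    show x1 u v + x2 u v = x1 v u + x2 v u
    rw [R1.symm u v, R2.symm u v]
  · intro u v huv
    show x1 u v + x2 u v = 0
    rw [R1.supp u v huv, R2.supp u v huv, add_zero]
  · intro u v
    show |x1 u v + x2 u v| ≤ 2 * M * eta
    have e1 := R1.rng u v
    have e2 := R2.rng u v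
    calc |x1 u v + x2 u v| ≤ |x1 u v| + |x2 u v| := abs_add_le _ _
      _ ≤ M * eta + M * eta := add_le_add e1 e2
      _ = 2 * M * eta := by ring
  · intro v
    have e1 := B1 v
    have e2 := B2 v
    unfold bd at e1 e2 ⊢
    rw [Finset.sum_add_distrib, e1, e2]
    push_cast
    ring

end Pool.Agent.HEC.H94
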